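import Pool.Agent.Y192.KC.SStm
import Pool.Agent.Y809.OG.Split
import Pool.Agent.Y833.OG.Hat
import Pool.Agent.Y768.KC.Rad0

/-!
The toric case (`Pool.Agent.Y192.KC.St_toric`).
-/

set_option autoImplicit false

namespace Pool.Agent.Y658.KS

open MvPolynomial Pool.Agent.Y192.OG Pool.Agent.Y192.KC

section root

open Pool.Agent.Y768.KC

/-- Laurent polynomials: divisibility of powers -/
theorem pow_dvd {p : ℕ} (B S : Lau p) (e : ℕ) (he : e ≠ 0) (h : B ^ e ∣ S ^ e) : B ∣ S := by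
  obtain ⟨H, hH⟩ := h
  obtain ⟨mB, dB, UB, hUB, eB⟩ := exists_hom B
  obtain ⟨mS, dS, US, hUS, eS⟩ := exists_hom S
  obtain ⟨mH, dH, UH, hUH, eH⟩ := exists_hom H
  have e1 : laurL (US ^ e * monomial mB 1 ^ e * monomial mH 1) =
      laurL (UB ^ e * UH * monomial mS 1 ^ e) := by
    simp only [laurL_mul, laurL_pow]
    rw [← eS, ← eB, ← eH, mul_pow, mul_pow, hH]
    ring
  have hE1 : (US ^ e * monomial mB 1 ^ e * monomial mH 1).IsHomogeneous
      (dS * e + mB.degree * e + mH.degree) :=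
    ((hUS.pow e).mul ((isHomogeneous_monomial _ rfl).pow e)).mul (isHomogeneous_monomial _ rfl)
  have hE2 : (UB ^ e * UH * monomial mS 1 ^ e).IsHomogeneous (dB * e + dH + mS.degree * e) :=
    ((hUB.pow e).mul hUH).mul ((isHomogeneous_monomial _ rfl).pow e)
  have e2 : US ^ e * monomial mB 1 ^ e * monomial mH 1 * X 0 ^ (dB * e + dH + mS.degree * e) =
      UB ^ e * UH * monomial mS 1 ^ e * X 0 ^ (dS * e + mB.degree * e + mH.degree) := by
    apply laurL_inj (hE1.mul (isHomogeneous_X_pow _ _))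
    · have := hE2.mul (isHomogeneous_X_pow (0 : Fin (p + 1))
        (dS * e + mB.degree * e + mH.degree))
      rwa [add_comm (dB * e + dH + mS.degree * e)] at this
    · rw [laurL_mul, e1, laurL_mul (UB ^ e * UH * monomial mS 1 ^ e)]
      simp only [laurL_pow, laurL_X0, one_pow, mul_one]
  have e3 : UB ^ e ∣ (US * (monomial mB 1 * monomial mH 1 *
      X 0 ^ (dB * e + dH + mS.degree * e))) ^ e := by
    have h4 : UB ^ e ∣ US ^ e * monomial mB 1 ^ e * monomial mH 1 *
        X 0 ^ (dB * e + dH + mS.degree * e) := by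
      rw [e2]
      exact ⟨UH * monomial mS 1 ^ e * X 0 ^ (dS * e + mB.degree * e + mH.degree), by ring⟩
    refine h4.trans ?_
    rw [mul_pow, mul_pow, mul_pow, ← mul_assoc, ← mul_assoc]
    exact mul_dvd_mul (mul_dvd_mul dvd_rfl (dvd_pow_self _ he)) (dvd_pow_self _ he)
  have e4 : UB ∣ US * (monomial mB 1 * monomial mH 1 * X 0 ^ (dB * e + dH + mS.degree * e)) :=
    (IsIntegrallyClosed.pow_dvd_pow_iff he).mp e3
  obtain ⟨Q, hQ⟩ := e4
  have e5 : laurL UB ∣ laurL US * laurL (monomial mB 1 * monomial mH 1 *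
      X 0 ^ (dB * e + dH + mS.degree * e)) :=
    ⟨laurL Q, by rw [← laurL_mul, hQ, laurL_mul]⟩
  have u1 : IsUnit (laurL (monomial mB (1 : ℂ) * monomial mH 1 *
      X (0 : Fin (p + 1)) ^ (dB * e + dH + mS.degree * e))) := by
    rw [laurL_mul, laurL_mul, laurL_pow, laurL_X0, one_pow, mul_one]
    exact (isUnit_laurL_monomial _).mul (isUnit_laurL_monomial _)
  rw [← eB, ← eS] at e5
  have e6 : B ∣ S * laurL (monomial mS 1) * laurL (monomial mB 1 * monomial mH 1 *
      X 0 ^ (dB * e + dH + mS.degree * e)) := (dvd_mul_right _ _).trans e5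
  exact (isUnit_laurL_monomial mS).dvd_mul_right.1 (u1.dvd_mul_right.1 e6)

end root

open Pool.Agent.Y809.OG

section main

variable {N : ℕ} {K : Type} [Field K] [Algebra ℂ K]

open Classical in
theorem comp_single' (Γ : Submodule ℤ (Fin N → ℤ)) (q : (Fin N → ℤ) ⧸ Γ) (t : Fin N → ℤ) (c : ℂ) :
    comp Γ q (AddMonoidAlgebra.single t c) =
      if Γ.mkQ t = q then AddMonoidAlgebra.single t c else 0 := by
  apply AddMonoidAlgebra.coeff_injective
  ext m
  rw [Pool.Agent.Y809.OG.comp_coeff]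
  by_cases hm : m = t
  · subst hm
    split_ifs
    · rfl
    · rfl
  · have h0 : (AddMonoidAlgebra.single t c : La N).coeff m = 0 := by
      rw [AddMonoidAlgebra.coeff_single, Finsupp.single_apply, if_neg (Ne.symm hm)]
    rw [h0]
    split_ifs
    · exact h0.symm
    · rfl
    · exact h0.symm
    · rfl

theorem as_sum (g : Lau N) :
    g = ∑ m ∈ g.coeff.support, AddMonoidAlgebra.single m (g.coeff m) :=
  (AddMonoidAlgebra.sum_coeff_single g).symm

/-- the monomials `xm x (bt j)` are independent -/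
theorem inj_ep {x : Fin N → Kˣ} {Γ : Submodule ℤ (Fin N → ℤ)} {b : ℕ} {bt : Fin b → Fin N → ℤ}
    {co : (Fin N → ℤ) →+ (Fin b → ℤ)} (hS : Splt Γ bt co)
    (hI : ∀ g ∈ RingHom.ker (ep x), ∀ q, comp Γ q g ∈ RingHom.ker (ep x)) (g : Lau b)
    (hg : ep (fun j => xm x (bt j)) g = 0) : g = 0 := by
  classical
  obtain ⟨g', hg'⟩ : ∃ g' : Lau N, g' = ∑ v ∈ g.coeff.support,
    AddMonoidAlgebra.single (tt bt v) (g.coeff v) := ⟨_, rfl⟩
  have h1 : g' ∈ RingHom.ker (ep x) := by
    rw [RingHom.mem_ker, hg', map_sum]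
    have h2 : ep (fun j => xm x (bt j)) g =
        ∑ v ∈ g.coeff.support, g.coeff v • (xm x (tt bt v) : K) := by
      conv_lhs => rw [as_sum g, map_sum]
      refine Finset.sum_congr rfl fun v _ => ?_
      rw [ep_single, xm_tt]
      rfl
    rw [hg] at h2
    rw [Finset.sum_congr rfl (fun v _ => ep_single x _ _)]
    exact h2.symm
  apply AddMonoidAlgebra.coeff_injective
  ext v0
  rw [AddMonoidAlgebra.coeff_zero, Finsupp.zero_apply]
  by_contra hne
  have h2 := hI _ h1 (Γ.mkQ (tt bt v0))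
  rw [← compHom_apply, hg', map_sum] at h2
  have h3 : ∑ v ∈ g.coeff.support, compHom Γ (Γ.mkQ (tt bt v0))
      (AddMonoidAlgebra.single (tt bt v) (g.coeff v)) =
      AddMonoidAlgebra.single (tt bt v0) (g.coeff v0) := by
    rw [Finset.sum_eq_single v0]
    · rw [compHom_apply, comp_single', if_pos rfl]
    · intro v _ hv
      rw [compHom_apply, comp_single', if_neg]
      intro h
      apply hv
      rw [← sub_eq_zero, ← map_sub] at h
      have h4 := (hS.ker _).2 ((Submodule.Quotient.mk_eq_zero Γ).1 h)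
      rw [map_sub, co_tt hS, co_tt hS, sub_eq_zero] at h4
      exact h4
    · intro h
      exact absurd (Finsupp.mem_support_iff.mpr hne) h
  rw [h3, RingHom.mem_ker, ep_single] at h2
  exact hne ((smul_eq_zero.mp h2).resolve_right (Units.ne_zero _))

theorem ep_const {x : Fin N → Kˣ} {Γ : Submodule ℤ (Fin N → ℤ)}
    (hc : ∀ γ ∈ Γ, ∃ c : ℂ, (xm x γ : K) = algebraMap ℂ K c) (g : Lau N)
    (hg : ∀ m ∈ g.coeff.support, m ∈ Γ) : ∃ α : ℂ, ep x g = algebraMap ℂ K α := by
  classical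
  have h : ep x g ∈ (⊥ : Subalgebra ℂ K) := by
    rw [as_sum g, map_sum]
    refine Subalgebra.sum_mem _ fun m hm => ?_
    rw [ep_single]
    refine Subalgebra.smul_mem _ ?_ _
    obtain ⟨c, hc⟩ := hc m (hg m hm)
    rw [hc]
    exact Subalgebra.algebraMap_mem _ c
  obtain ⟨α, hα⟩ := Algebra.mem_bot.mp h
  exact ⟨α, hα.symm⟩

end main

theorem t_toric : St_toric := by
  classical
  intro n r X K _ _ x Γ A B S a hv hsat hI hj hc
  obtain ⟨b, bt, co, hco, hbt⟩ := Pool.Agent.Y833.OG.basis_exists Γ hsat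
  have hS : Splt Γ bt co := ⟨hco, hbt⟩
  have hκ0 : ∀ m : Fin n → ℤ, ∃ c : ℂ, (xm x (m - tt bt (co m)) : K) = algebraMap ℂ K c := by
    intro m
    apply hc
    rw [← hco, map_sub, co_tt hS, sub_self]
  choose κ hκ1 using hκ0
  have hκ : ∀ m : Fin n → ℤ, (xm x m : K) = algebraMap ℂ K (κ m) * (xm x (tt bt (co m)) : K) := by
    intro m
    have h1 : m = (m - tt bt (co m)) + tt bt (co m) := by abel
    conv_lhs => rw [h1, xm_add, Units.val_mul, hκ1]
  have hκne : ∀ m, κ m ≠ 0 := by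
    intro m h0
    have h1 := hκ1 m
    rw [h0, map_zero] at h1
    exact Units.ne_zero _ h1
  set Ψ : Lau b →ₐ[ℂ] K := ep (fun j => xm x (bt j)) with hΨ
  have hΨs : ∀ (v : Fin b → ℤ) (c : ℂ),
      Ψ (AddMonoidAlgebra.single v c) = algebraMap ℂ K c * (xm x (tt bt v) : K) := by
    intro v c
    rw [hΨ, ep_single, xm_tt, Algebra.smul_def]
    rfl
  have hinj : ∀ u v : Lau b, Ψ u = Ψ v → u = v := by
    intro u v huv
    rw [← sub_eq_zero]
    apply inj_ep hS hI
    rw [← hΨ, map_sub, huv, sub_self]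
  have hsur : ∀ g : Lau n, ∃ g' : Lau b, Ψ g' = ep x g := by
    intro g
    induction g using AddMonoidAlgebra.induction_linear with
    | zero => exact ⟨0, by rw [map_zero, map_zero]⟩
    | add g h hg hh =>
      obtain ⟨g', hg'⟩ := hg
      obtain ⟨h', hh'⟩ := hh
      exact ⟨g' + h', by rw [map_add, map_add, hg', hh']⟩
    | single m c =>
      refine ⟨AddMonoidAlgebra.single (co m) (c * κ m), ?_⟩
      rw [hΨs, ep_single, Algebra.smul_def, hκ m, map_mul, mul_assoc]
  set A' : Fin (n + 1) → Fin b → ℤ :=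
    Fin.cons (α := fun _ => Fin b → ℤ) 0 (fun i => co (Pi.single i 1)) with hA'
  set c' : Fin (n + 1) → ℂ := Fin.cons (α := fun _ => ℂ) 1 (fun i => κ (Pi.single i 1)) with hc'
  have hlaur : ∀ f : MvPolynomial (Fin (n + 1)) ℂ,
      Ψ (aeval (fun i => (AddMonoidAlgebra.single (A' i) (c' i) : Lau b)) f) = ep x (laur f) := by
    intro f
    unfold laur
    rw [comp_aeval_apply, comp_aeval_apply]
    congr 2
    funext i
    refine Fin.cases ?_ (fun i => ?_) i
    · rw [hA', hc', Fin.cons_zero, Fin.cons_zero, Fin.cons_zero, ← AddMonoidAlgebra.one_def,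
        map_one, map_one]
    · rw [hA', hc', Fin.cons_succ, Fin.cons_succ, Fin.cons_succ, hΨs, ep_single, one_smul, ← hκ]
  refine ⟨b, A', c', ?_, ?_, ?_, ?_⟩
  · intro i
    refine Fin.cases ?_ (fun i => ?_) i
    · rw [hc', Fin.cons_zero]
      exact one_ne_zero
    · rw [hc', Fin.cons_succ]
      exact hκne _
  · intro f k hf
    rw [← hv f k hf, ← hlaur]
    constructor
    · intro h
      rw [h, map_zero]
    · intro h
      apply hinj
      rw [h, map_zero]
  · obtain ⟨h1, h2, h3, h4, h5⟩ := hj 0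
    obtain ⟨α, hα⟩ := ep_const hc (A 0) h1
    have hFL : X.FL 0 = laur X.G := rfl
    have heL : X.eL 0 = 0 := rfl
    rw [hFL, heL, pow_zero, one_mul, pow_zero, mul_one, map_mul, ep_single, one_smul, hα, hκ,
      ← mul_assoc, ← map_mul, ← hΨs, ← hlaur] at h5
    exact ⟨_, _, hinj _ _ h5⟩
  · intro j
    obtain ⟨h1, h2, h3, h4, h5⟩ := hj j.succ
    obtain ⟨α, hα⟩ := ep_const hc (A j.succ) h1
    have hFL : X.FL j.succ = laur (X.F j) := rfl
    have heL : X.eL j.succ = X.e j := rfl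
    have he : X.e j ≠ 0 := (X.he j).ne'
    obtain ⟨B', hB'⟩ := hsur (B j.succ)
    obtain ⟨S', hS'⟩ := hsur (S j.succ)
    obtain ⟨F', hF'⟩ : ∃ F' : Lau b, F' = aeval (fun i =>
      (AddMonoidAlgebra.single (A' i) (c' i) : Lau b)) (X.F j) := ⟨_, rfl⟩
    have hF'' : Ψ F' = ep x (laur (X.F j)) := by rw [hF', hlaur]
    have hαne : α ≠ 0 := by
      rintro rfl
      rw [map_zero] at hα
      exact h2 hα
    obtain ⟨δ, hδ⟩ : ∃ δ : ℂ, δ = α * κ (a j.succ) := ⟨_, rfl⟩
    have hδne : δ ≠ 0 := by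
      rw [hδ]
      exact mul_ne_zero hαne (hκne _)
    have h6 : B' ^ X.e j * F' = AddMonoidAlgebra.single (co (a j.succ)) δ * S' ^ X.e j := by
      apply hinj
      rw [hFL, heL, map_mul, map_pow, map_mul, map_mul, map_pow, ep_single, one_smul, hα,
        hκ (a j.succ)] at h5
      rw [map_mul, map_pow, hB', hF'', map_mul, map_pow, hS', hΨs, hδ, map_mul, h5]
      ring
    have hunit : (AddMonoidAlgebra.single (co (a j.succ)) δ : Lau b) *
        AddMonoidAlgebra.single (-co (a j.succ)) δ⁻¹ = 1 := by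
      rw [AddMonoidAlgebra.single_mul_single, add_neg_cancel, mul_inv_cancel₀ hδne]
      rfl
    have h7 : B' ^ X.e j ∣ S' ^ X.e j := by
      refine ⟨F' * AddMonoidAlgebra.single (-co (a j.succ)) δ⁻¹, ?_⟩
      rw [← mul_assoc, h6]
      calc S' ^ X.e j = (AddMonoidAlgebra.single (co (a j.succ)) δ *
            AddMonoidAlgebra.single (-co (a j.succ)) δ⁻¹) * S' ^ X.e j := by rw [hunit, one_mul]
        _ = _ := by ring
    obtain ⟨T, hT⟩ := pow_dvd B' S' (X.e j) he h7
    obtain ⟨β, hβ⟩ := IsAlgClosed.exists_pow_nat_eq δ (Nat.pos_of_ne_zero he)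
    refine ⟨co (a j.succ), AddMonoidAlgebra.single 0 β * T, ?_⟩
    rw [← hF']
    apply hinj
    have hB0 : Ψ B' ^ X.e j ≠ 0 := by
      rw [hB']
      exact pow_ne_zero _ h3
    apply mul_left_cancel₀ hB0
    have h8 := congrArg Ψ h6
    rw [map_mul, map_pow, map_mul, map_pow, hT, map_mul, mul_pow, hΨs] at h8
    have htt : Pool.Agent.Y809.OG.tt bt (0 : Fin b → ℤ) = 0 := by
      unfold Pool.Agent.Y809.OG.tt
      simp
    have h9 : Ψ (AddMonoidAlgebra.single (co (a j.succ)) 1 *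
        (AddMonoidAlgebra.single 0 β * T) ^ X.e j) =
        (xm x (tt bt (co (a j.succ))) : K) * (algebraMap ℂ K β * Ψ T) ^ X.e j := by
      rw [map_mul, map_pow, map_mul, hΨs, hΨs, map_one, htt, xm_zero, Units.val_one, one_mul,
        mul_one]
    have h10 : algebraMap ℂ K β ^ X.e j = algebraMap ℂ K δ := by rw [← map_pow, hβ]
    rw [h8, h9, mul_pow, h10]
    ring

end Pool.Agent.Y658.KS
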